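import Mathlib
import Pool.Agent.Helper650.APDefs
import Pool.Agent.H279R2.Alt8
import Pool.Agent.H279R2.Alt9

/-!
# Long alternating noncrossing paths among disjoint segments: explicit bounds

`(1 / 40000) √n ≤ f n ≤ 3 m` for all `n` and all `m ≥ 1` with `n ≤ m²`, that is
`f n ≤ 3 ⌈√n⌉` for `n ≥ 1`.
-/

set_option autoImplicit false

namespace Pool.Agent.Results.MP_0187d8_co.ExplicitSqrtOrder

open Pool.Agent.Helper650.AltPath

lemma upper_sq {n m : ℕ} (hm0 : 0 < m) (hnm : n ≤ m * m) : f n ≤ 3 * m := by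
  apply csSup_le
  · refine ⟨0, ?_⟩
    intro p _
    exact ⟨0, fun _ => 0, le_rfl, ⟨by simp, by simp, by simp⟩⟩
  · intro ℓ hℓ
    obtain ⟨ℓ', v, h1, h2⟩ := hℓ (Pool.Agent.H279R2.Alt.cp m n)
      (Pool.Agent.H279R2.Alt.cp_genpos hm0 n)
    exact h1.trans (Pool.Agent.H279R2.Alt.cp_short hm0 hnm h2)

/-- Explicit bounds for `f n`: `√n / 40000 ≤ f n ≤ 3 m` whenever `1 ≤ m` and `n ≤ m²`. Every
collection of `n` disjoint segments in general position has a path of length at least `√n / 40000`,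
and if `1 ≤ m`, `n ≤ m²` then some such collection has no path of length greater than `3 m`. -/
theorem result : ∀ n : ℕ,
    Real.sqrt n / 40000 ≤ (f n : ℝ) ∧
    (∀ p : Fin n → Bool → ℝ × ℝ, DisjointGenPos p →
      ∃ (ℓ : ℕ) (v : ℕ → ℝ × ℝ), IsAltPath p ℓ v ∧ Real.sqrt n / 40000 ≤ (ℓ : ℝ)) ∧
    ∀ m : ℕ, 1 ≤ m → n ≤ m ^ 2 → f n ≤ 3 * m ∧
      ∃ p : Fin n → Bool → ℝ × ℝ, DisjointGenPos p ∧
        ∀ (ℓ : ℕ) (v : ℕ → ℝ × ℝ), IsAltPath p ℓ v → ℓ ≤ 3 * m := by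
  intro n
  have e : Real.sqrt n / 40000 = 1 / 40000 * Real.sqrt n := by ring
  rw [e]
  refine ⟨Pool.Agent.H279R2.Alt.lower' n, fun p hp => Pool.Agent.H279R2.Alt.long_path' hp,
    fun m hm hnm => ?_⟩
  rw [pow_two] at hnm
  exact ⟨upper_sq hm hnm, _, Pool.Agent.H279R2.Alt.cp_genpos hm n,
    fun ℓ v h => Pool.Agent.H279R2.Alt.cp_short hm hnm h⟩

end Pool.Agent.Results.MP_0187d8_co.ExplicitSqrtOrder
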